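import Pool.Agent.Helper90.MZ.StmtsA

set_option autoImplicit false

namespace Pool.Agent.Helper90.MZ

open Pool.Agent.Helper90.TS

variable {V G : Type} [Group G] [MulAction G V]

theorem cc_mv_mv (g h : G) (p : Ty V) : mv g (mv h p) = mv (g * h) p := by
  unfold mv
  congr 1
  · exact tr_tr g h p.A
  · ext x
    simp only [Set.mem_setOf_eq]
    rw [mul_inv_rev, mul_smul]
  · rw [mul_smul]

theorem cc_dmn_congr {X : Ctx V G} {p p' : Ty V} (hA : p.A = p'.A)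
    (hR : ∀ (B : Set V) (y : Fin 1 → V), Rl X p B y ↔ Rl X p' B y) {B N : Set V} {k : ℕ}
    (h : Dmn X p B N k) : Dmn X p' B N k := by
  obtain ⟨y, h1, h2, h3⟩ := h
  refine ⟨y, fun i => ⟨(h1 i).1, (hR _ _).1 (h1 i).2⟩, ?_, ?_⟩
  · rw [← hA]; exact h2
  · intro x hx hRl
    exact h3 x hx ((hR _ _).2 hRl)

/-- uniqueness of the dimension -/
theorem cc_uniq (hDIM : ST_DIM) {X : Ctx V G} {p : Ty V} (hp : SR X p) {B N : Set V} {k k' : ℕ}
    (hN : Mdl X N) (hpN : p.A ⊆ N) (hBN : B ⊆ N) (h : Dmn X p B N k) (h' : Dmn X p B N k') :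
    k = k' := by
  obtain ⟨d1, -⟩ := hDIM V G X p hp
  refine le_antisymm ?_ ?_
  · obtain ⟨y, h1, h2, -⟩ := h
    exact d1 B N k' k y hN hpN hBN h' h1 h2
  · obtain ⟨y, h1, h2, -⟩ := h'
    exact d1 B N k k' y hN hpN hBN h h1 h2

/-- the dimension over an intermediate model -/
theorem cc_exists (hDIM : ST_DIM) (hIND : ST_IND) (hRLB : ST_RLB) {X : Ctx V G} {p : Ty V}
    (hp : SR X p) {N N' : Set V} {k : ℕ} (hN : Mdl X N) (hN' : Mdl X N') (hNN' : N ⊆ N')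
    (hpN : p.A ⊆ N) (h : Dmn X p ∅ N' k) : ∃ r, Dmn X p N N' r := by
  obtain ⟨d1, -, -, -, -, d6⟩ := hDIM V G X p hp
  have hNc : N.Countable := hN.1
  have hpc : p.A.Countable := hp.cnt
  obtain ⟨r, -, hr⟩ := d6 N N' k hN' (hpN.trans hNN') hNN' (by
    intro y hy hI
    have h1 : k + 1 ≤ k := by
      refine d1 ∅ N' k (k + 1) y hN' (hpN.trans hNN') (Set.empty_subset _) h (fun i => ?_) ?_
      · refine ⟨(hy i).1, ?_⟩
        exact (hRLB V G X p hp N hNc).2.2.1 (y i) (hy i).2 ∅ (Set.empty_subset _)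
      · rw [Set.union_empty]
        refine (hIND V G X p.A hpc).2.1 (k + 1) (fun i => Set.range (y i))
          (fun i => Set.countable_range _) (fun i => ?_)
        have h2 : SI X (p.A ∪ N) (Set.range (y i)) (⋃ j ∈ {j | j < i}, Set.range (y j)) := by
          have := hI {i} {j | j < i} (by
            rw [Set.disjoint_singleton_left]
            simp)
          rw [Set.biUnion_singleton] at this
          exact this
        have h3 : SI X p.A (Set.range (y i)) N := (hy i).2.2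
        have hc : (⋃ j ∈ {j | j < i}, Set.range (y j)).Countable :=
          Set.Countable.biUnion (Set.to_countable _) (fun j _ => Set.countable_range _)
        have h4 := si_trans hpc (Set.countable_range _) hNc hc h3 h2
        exact si_right hpc (Set.countable_range _) (hNc.union hc) Set.subset_union_right h4
    omega)
  exact ⟨r, hr⟩

theorem st_CC (hDIM : ST_DIM) (hENIU : ST_ENIU) (hPRIM : ST_PRIM) (hPUNI : ST_PUNI)
    (_hSTN : ST_STN) (hWT : ST_WT) (hINVA : ST_INVA) (hINVB : ST_INVB) (hNOEQ : ST_NOEQ)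
    (hMDLB : ST_MDLB) (hUSEV : ST_USEV) (hIND : ST_IND) (hRLB : ST_RLB) : ST_CC := by
  intro V G _ _ X Q a q σ k hQ haQ haf hq hqQ hσ hσQ hStn hNO hdim
  have hSR : SR X q := hq.1
  have hqf : q.A.Finite := hq.2.1
  have hqc : q.A.Countable := hqf.countable
  have hac : a.Countable := haf.countable
  have hQc : Q.Countable := hQ.1
  obtain ⟨hno1, hno2, hno3⟩ := hNOEQ V G X
  obtain ⟨τ, hτ, hτi⟩ := si_ex (X := X) hac hqc hQc
  set q2 : Ty V := mv τ q with hq2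
  have hq2A : q2.A = tr τ q.A := rfl
  have hSR2 : SR X q2 := (hINVA V G X τ).2.2.1 q hSR
  have hENI2 : ENI X q2 := (hINVA V G X τ).2.2.2.2.2.2.2.2.1 q hq
  have hNO2 : NO X q2 q := hNO τ hτ
  have hq2f : q2.A.Finite := tr_finite τ hqf
  have hq2c : q2.A.Countable := hq2f.countable
  set qs : Ty V := mv σ q with hqs
  have hqsA : qs.A = tr σ q.A := rfl
  have hSRs : SR X qs := (hINVA V G X σ).2.2.1 q hSR
  have hNOs : NO X q qs := hno2 _ _ (hNO σ hσ)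
  have hNO2s : NO X q2 qs := hno3 q2 q qs hSR2 hSR hSRs hNO2 hNOs
  have hqsf : qs.A.Finite := tr_finite σ hqf
  -- the model Q+
  obtain ⟨Q1, hQ1, hQ1sub, -⟩ := (hMDLB V G X).2.1 ∅ ∅ (Q ∪ q2.A) (Set.empty_subset _)
    (hQc.union hq2c) Set.countable_empty si_empty_right
  obtain ⟨Qp, -, hQp⟩ := hPRIM V G X (Q ∪ q2.A) Q1 hQ1 hQ1sub
  have hQpm : Mdl X Qp := hQp.1
  have hQQp : Q ⊆ Qp := Set.subset_union_left.trans hQp.2.1
  have hq2Qp : q2.A ⊆ Qp := Set.subset_union_right.trans hQp.2.1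
  have hqQp : q.A ⊆ Qp := hqQ.trans hQQp
  have hqsQp : qs.A ⊆ Qp := hσQ.trans hQQp
  obtain ⟨d1, d2, d3, d4, -, d6⟩ := hDIM V G X q hSR
  obtain ⟨-, d2'', d3'', d4'', -, -⟩ := hDIM V G X q2 hSR2
  obtain ⟨d1s, -, d3s, -, -, d6s⟩ := hDIM V G X qs hSRs
  -- (i)
  obtain ⟨w, hw⟩ := hWT V G X Q q2.A hQc hq2f
  obtain ⟨e, -, he⟩ := d6 Q Qp w hQpm hqQp hQQp (by
    intro y hy hI
    have hqQe : q.A ∪ Q = Q := Set.union_eq_self_of_subset_left hqQ
    rw [hqQe] at hI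
    obtain ⟨J, hJ, hJi⟩ := hw ∅ Set.countable_empty si_empty_right (w + 1)
      (fun i => Set.range (y i)) (fun i => Set.countable_range _) (by
        rw [Set.union_empty]; exact hI)
    rw [Set.union_empty] at hJi
    obtain ⟨i, hi⟩ : ∃ i : Fin (w + 1), i ∉ J := by
      by_contra hcon
      push Not at hcon
      have h1 : (Finset.univ : Finset (Fin (w + 1))) ⊆ J := fun i _ => hcon i
      have h2 := Finset.card_le_card h1
      simp at h2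
      omega
    have h3 : SI X Q (Set.range (y i)) q2.A := by
      refine si_left ?_ hJi
      intro x hx
      exact Set.mem_biUnion (show i ∈ {i | i ∉ J} from hi) hx
    have h4 : Isl X (Q ∪ q2.A) (y i) := hQp.2.2 1 (y i) (hy i).1
    have h5 := hUSEV V G X Q q2.A hQ hq2c (Fin 1) (y i) h4 h3
    exact (hRLB V G X q hSR Q hQc).2.2.2.2.2.2.2.1 (y i) (hy i).2 hQ hqQ h5)
  have hes : Dmn X qs Q Qp e := d4 Q Qp e qs hSRs hQ hQpm hQQp hqQ hσQ hNOs he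
  have hke : Dmn X q ∅ Qp (k + e) :=
    d3 ∅ Q Qp k e hQ hQpm hQQp hqQ (Set.empty_subset _) hdim he
  -- (ii)
  have hEf : (a ∪ q.A ∪ q2.A).Finite := (haf.union hqf).union hq2f
  have hEsub : a ∪ q.A ∪ q2.A ⊆ Qp := by
    rintro x ((hx | hx) | hx)
    · exact hQQp (haQ hx)
    · exact hqQp hx
    · exact hq2Qp hx
  obtain ⟨N, hNsub, hN⟩ := hPRIM V G X (a ∪ q.A ∪ q2.A) Qp hQpm hEsub
  have hNm : Mdl X N := hN.1
  have hqN : q.A ⊆ N := fun x hx => hN.2.1 (Or.inl (Or.inr hx))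
  have hq2N : q2.A ⊆ N := fun x hx => hN.2.1 (Or.inr hx)
  obtain ⟨F1, hF1, hF1N, hF1o⟩ := (hENIU V G X q).2.1 hq (a ∪ q.A ∪ q2.A) N hEf
    (fun x hx => Or.inl (Or.inr hx)) hN
  obtain ⟨n1, hn1⟩ := d2 F1 N hqf hF1 hNm hqN hF1N hF1o
  obtain ⟨F2, hF2, hF2N, hF2o⟩ := (hENIU V G X q2).2.1 hENI2 (a ∪ q.A ∪ q2.A) N hEf
    (fun x hx => Or.inr hx) hN
  obtain ⟨n2, hn2⟩ := d2'' F2 N hq2f hF2 hNm hq2N hF2N hF2o
  obtain ⟨r, hr⟩ := cc_exists hDIM hIND hRLB hSR hNm hQpm hNsub hqN hke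
  have hr2 : Dmn X q2 N Qp r := d4 N Qp r q2 hSR2 hNm hQpm hNsub hqN hq2N (hno2 _ _ hNO2) hr
  have hn1r : Dmn X q ∅ Qp (n1 + r) :=
    d3 ∅ N Qp n1 r hNm hQpm hNsub hqN (Set.empty_subset _) hn1 hr
  have hn2r : Dmn X q2 ∅ Qp (n2 + r) :=
    d3'' ∅ N Qp n2 r hNm hQpm hNsub hq2N (Set.empty_subset _) hn2 hr2
  have heq1 : k + e = n1 + r :=
    cc_uniq hDIM hSR hQpm hqQp (Set.empty_subset _) hke hn1r
  -- (iii)
  have hi1 : SI X a q.A q2.A :=
    si_symm hac hq2c hqc (si_right hac hq2c hQc hqQ hτi)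
  have hi2 : SI X a (tr σ q.A) q2.A :=
    si_symm hac hq2c hqsf.countable (si_right hac hq2c hQc hσQ hτi)
  obtain ⟨h, hh, hhσ⟩ := hStn q2.A hq2c σ hσ hi1 hi2
  obtain ⟨hha, hh2⟩ := fx_union.1 hh
  have htr : tr h (a ∪ q.A ∪ q2.A) = a ∪ tr σ q.A ∪ q2.A := by
    have e1 : tr h a = a := tr_fx hha
    have e2 : tr h q2.A = q2.A := tr_fx hh2
    have e3 : tr h q.A = tr σ q.A := by
      unfold tr
      exact Set.image_congr (fun x hx => hhσ x hx)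
    have e4 : tr h (a ∪ q.A ∪ q2.A) = tr h a ∪ tr h q.A ∪ tr h q2.A := by
      unfold tr
      rw [Set.image_union, Set.image_union]
    rw [e4, e1, e2, e3]
  have hEsub' : a ∪ tr σ q.A ∪ q2.A ⊆ Qp := by
    rintro x ((hx | hx) | hx)
    · exact hQQp (haQ hx)
    · exact hqsQp hx
    · exact hq2Qp hx
  obtain ⟨N', hN'sub, hN'⟩ := hPRIM V G X (a ∪ tr σ q.A ∪ q2.A) Qp hQpm hEsub'
  have hN'm : Mdl X N' := hN'.1
  have hqsN' : qs.A ⊆ N' := fun x hx => hN'.2.1 (Or.inl (Or.inr hx))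
  have hq2N' : q2.A ⊆ N' := fun x hx => hN'.2.1 (Or.inr hx)
  obtain ⟨h', hh', hh'N⟩ := hPUNI V G X (a ∪ q.A ∪ q2.A) N N' h hN (by rw [htr]; exact hN')
  have hb1 := (hINVB V G X h').2.2.2.1 q ∅ N n1 hqc Set.countable_empty hn1
  have hb2 := (hINVB V G X h').2.2.2.1 q2 ∅ N n2 hq2c Set.countable_empty hn2
  rw [tr_empty, hh'N] at hb1 hb2
  -- compare the types
  have hc1 : Dmn X qs ∅ N' n1 := by
    have hfx : h' * σ⁻¹ ∈ Fx G qs.A := by
      rintro _ ⟨x, hx, rfl⟩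
      change (h' * σ⁻¹) • σ • x = σ • x
      rw [mul_smul, inv_smul_smul, hh' x (Or.inl (Or.inr hx)), hhσ x hx]
    obtain ⟨e1, -, e2, -⟩ := (hINVA V G X (h' * σ⁻¹)).2.2.2.2.2.2.2.2.2.2.2 qs hSRs hfx
    have e3 : mv (h' * σ⁻¹) qs = mv h' q := by
      rw [hqs, cc_mv_mv, inv_mul_cancel_right]
    rw [e3] at e1 e2
    exact cc_dmn_congr e1 e2 hb1
  have hc2 : Dmn X q2 ∅ N' n2 := by
    have hfx : h' ∈ Fx G q2.A := by
      intro x hx
      rw [hh' x (Or.inr hx)]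
      exact hh2 x hx
    obtain ⟨e1, -, e2, -⟩ := (hINVA V G X h').2.2.2.2.2.2.2.2.2.2.2 q2 hSR2 hfx
    exact cc_dmn_congr e1 e2 hb2
  obtain ⟨r', hr'⟩ := cc_exists hDIM hIND hRLB hSR2 hN'm hQpm hN'sub hq2N' hn2r
  have hrs : Dmn X qs N' Qp r' :=
    d4'' N' Qp r' qs hSRs hN'm hQpm hN'sub hq2N' hqsN' hNO2s hr'
  have hs1 : Dmn X qs ∅ Qp (n1 + r') :=
    d3s ∅ N' Qp n1 r' hN'm hQpm hN'sub hqsN' (Set.empty_subset _) hc1 hrs
  have hs2 : Dmn X q2 ∅ Qp (n2 + r') :=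
    d3'' ∅ N' Qp n2 r' hN'm hQpm hN'sub hq2N' (Set.empty_subset _) hc2 hr'
  have heq2 : n2 + r = n2 + r' :=
    cc_uniq hDIM hSR2 hQpm hq2Qp (Set.empty_subset _) hn2r hs2
  -- (iv)
  obtain ⟨k', -, hk'⟩ := d6s ∅ Q (n1 + r') hQ hσQ (Set.empty_subset _) (by
    intro y hy hI
    have h1 := d1s ∅ Qp (n1 + r') (n1 + r' + 1) y hQpm hqsQp (Set.empty_subset _) hs1
      (fun i => ⟨(hy i).1.trans hQQp, (hy i).2⟩) hI
    omega)
  have hk's : Dmn X qs ∅ Qp (k' + e) :=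
    d3s ∅ Q Qp k' e hQ hQpm hQQp hσQ (Set.empty_subset _) hk' hes
  have heq3 : n1 + r' = k' + e :=
    cc_uniq hDIM hSRs hQpm hqsQp (Set.empty_subset _) hs1 hk's
  have : k' = k := by omega
  rw [← this]
  exact hk'

end Pool.Agent.Helper90.MZ
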