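import Pool.Agent.Helper90.MZ.StmtsA

set_option autoImplicit false

namespace Pool.Agent.Helper90.MZ

open Pool.Agent.Helper90.TS

/-- a model containing a countable set -/
theorem ort_model {V G : Type} [Group G] [MulAction G V] {X : Ctx V G} (h : ST_MDLB) (C : Set V)
    (hC : C.Countable) : ∃ M, Mdl X M ∧ C ⊆ M := by
  obtain ⟨M, hM, h1, -⟩ := (h V G X).2.1 ∅ ∅ C (Set.empty_subset _) hC Set.countable_empty
    si_empty_right
  exact ⟨M, hM, h1⟩

/-- atomic models over countable sets -/
theorem ort_atomic {V G : Type} [Group G] [MulAction G V] {X : Ctx V G} (h : ST_MDLB)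
    (h' : ST_PRIM) (C : Set V) (hC : C.Countable) : ∃ M, Atm X C M := by
  obtain ⟨N, hN, h1⟩ := ort_model (X := X) h C hC
  obtain ⟨M, -, hM⟩ := h' V G X C N hN h1
  exact ⟨M, hM⟩

theorem st_ORT (hSUPB : ST_SUPB) (hSRDN : ST_SRDN) (hCHN : ST_CHN) (hDOM : ST_DOM)
    (_hTVL : ST_TVL) (hATMB : ST_ATMB) (hSRL : ST_SRL) (_hNWO : ST_NWO) (hUSEV : ST_USEV)
    (hPRIM : ST_PRIM) (hMDLB : ST_MDLB) (hRLB : ST_RLB) (_hSUPU : ST_SUPU) (hNOEQ : ST_NOEQ) :
    ST_ORT := by
  intro V G _ _ X A h Y q z hq hAh hqh hh hSup hY hAY hz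
  have hA : A.Countable := hh.mono hAh
  haveI : Nonempty V := ⟨z 0⟩
  have hzc : (Set.range z).Countable := Set.countable_range z
  obtain ⟨-, hMDL2, -, -, -, -, -⟩ := hMDLB V G X
  obtain ⟨hno1, hno2, hno3⟩ := hNOEQ V G X
  -- the model M
  obtain ⟨M, hM, hAM, hMi⟩ := hMDL2 A (h ∪ Y ∪ Set.range z) A le_rfl hA
    ((hh.union hY).union hzc) (si_self_left hA ((hh.union hY).union hzc) le_rfl)
  have hMc : M.Countable := hM.1
  have hMq : ¬ Sp X M q := by
    intro hSp
    refine hSup (hSUPB V G X A M q hAM hM hq ?_ hSp)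
    exact si_right hA hMc ((hh.union hY).union hzc)
      (hqh.trans (Set.subset_union_left.trans Set.subset_union_left)) hMi
  have hAM' : A ∪ M = M := Set.union_eq_self_of_subset_left hAM
  -- Y is independent from h over M
  have hMYh : SI X M Y h := by
    have h1 : SI X A M (Y ∪ h) := si_right hA hMc ((hh.union hY).union hzc) (by
      rintro x (hx | hx)
      · exact Or.inl (Or.inr hx)
      · exact Or.inl (Or.inl hx)) hMi
    have h2 := ((si_union hA hMc hY hh).1 h1).2
    -- M independent from h over A ∪ Y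
    have h3 : SI X (A ∪ Y) h M := si_symm (hA.union hY) hMc hh h2
    have h4 : SI X A h Y := si_symm hA hY hh hAY
    have h5 : SI X A h (Y ∪ M) := si_trans hA hh hY hMc h4 h3
    rw [Set.union_comm] at h5
    have h6 := ((si_union hA hh hMc hY).1 h5).2
    rw [hAM'] at h6
    exact si_symm hMc hh hY h6
  -- z realizes q over h ∪ M
  have hqAh : q.A ∪ h = h := Set.union_eq_self_of_subset_left hqh
  obtain ⟨-, -, rl3, rl4, rl5, -, -, rl8, -⟩ := hRLB V G X q hq h hh
  have hzM : SI X h (Set.range z) M := by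
    have h1 : SI X A M (h ∪ Set.range z) := si_right hA hMc ((hh.union hY).union hzc) (by
      rintro x (hx | hx)
      · exact Or.inl (Or.inl hx)
      · exact Or.inr hx) hMi
    have h2 := ((si_union hA hMc hh hzc).1 h1).2
    rw [Set.union_eq_self_of_subset_left hAh] at h2
    exact si_symm hh hMc hzc h2
  have hzhM : Rl X q (h ∪ M) z := rl4 z M hMc hz (by rw [hqAh]; exact hzM)
  have hhM : (h ∪ M).Countable := hh.union hMc
  -- it suffices to show independence over h ∪ M
  suffices hclaim : SI X (h ∪ M) (Set.range z) Y by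
    have h1 : SI X h (Set.range z) (M ∪ Y) := si_trans hh hzc hMc hY hzM hclaim
    have h2 : SI X h (Set.range z) Y :=
      si_right hh hzc (hMc.union hY) Set.subset_union_right h1
    exact rl4 z Y hY hz (by rw [hqAh]; exact h2)
  -- the model N1
  obtain ⟨N1, hN1, hsub, hN1i⟩ := hMDL2 (h ∪ M) (Y ∪ Set.range z) (h ∪ M) le_rfl hhM
    (hY.union hzc) (si_self_left hhM (hY.union hzc) le_rfl)
  have hN1c : N1.Countable := hN1.1
  have hMN1 : M ⊆ N1 := Set.subset_union_right.trans hsub
  have hhN1 : h ⊆ N1 := Set.subset_union_left.trans hsub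
  have hqN1 : q.A ⊆ N1 := hqh.trans hhN1
  have hYN1 : SI X M Y N1 := by
    have h1 : SI X (h ∪ M) N1 Y :=
      si_right hhM hN1c (hY.union hzc) Set.subset_union_left hN1i
    have h2 : SI X (h ∪ M) Y N1 := si_symm hhM hN1c hY h1
    rw [Set.union_comm] at h2
    have h3 := si_trans hMc hY hh hN1c hMYh h2
    exact si_right hMc hY (hh.union hN1c) Set.subset_union_right h3
  have hzN1i : SI X (h ∪ M) (Set.range z) N1 := by
    have h1 : SI X (h ∪ M) N1 (Set.range z) :=
      si_right hhM hN1c (hY.union hzc) Set.subset_union_right hN1i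
    exact si_symm hhM hN1c hzc h1
  have hzN1 : Rl X q N1 z := by
    obtain ⟨-, -, -, rl4', -⟩ := hRLB V G X q hq (h ∪ M) hhM
    have h1 := rl4' z N1 hN1c hzhM (by
      rw [← Set.union_assoc, hqAh]; exact hzN1i)
    obtain ⟨-, -, rl3', -⟩ := hRLB V G X q hq (h ∪ M ∪ N1) (hhM.union hN1c)
    exact rl3' z h1 N1 (fun x hx => Or.inr (Or.inr hx))
  suffices hcl2 : SI X N1 (Set.range z) Y by
    have h1 := si_trans' hzc hN1c hY hsub hzN1i hcl2
    exact si_right hhM hzc (hN1c.union hY) Set.subset_union_right h1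
  -- finite part
  refine si_finite hN1c hzc hY (fun B0 β hB0 hβY _ hβ => ?_)
  refine si_left hB0 ?_
  by_contra hcon
  have hβc : β.Countable := hβ.countable
  -- every model containing N1 and β realizes q over N1
  have hreal : ∀ N' : Set V, Mdl X N' → N1 ⊆ N' → β ⊆ N' → ¬ Om X q N1 N' := by
    intro N' hN' h1 h2 hOm
    have h3 := hSRL V G X q N1 N' hq hN' (hqN1.trans h1) h1 hOm z hzN1
    obtain ⟨-, -, -, -, rl5', -⟩ := hRLB V G X q hq N1 hN1c
    have h4 : N1 ∪ N' = N' := Set.union_eq_self_of_subset_left h1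
    have h5 := rl5' z N' hN'.1 (by rw [h4]; exact h3)
    rw [Set.union_eq_self_of_subset_left hqN1] at h5
    exact hcon (si_right hN1c hzc hN'.1 h2 h5)
  -- the model Mb
  obtain ⟨Mb, hMb⟩ := ort_atomic (X := X) hMDLB hPRIM (M ∪ β) (hMc.union hβc)
  have hMbm : Mdl X Mb := hMb.1
  have hMMb : M ⊆ Mb := Set.subset_union_left.trans hMb.2.1
  have hβMb : β ⊆ Mb := Set.subset_union_right.trans hMb.2.1
  have hMbc : Mb.Countable := hMbm.1
  have hN1Mb : SI X M N1 Mb := by
    have h1 : SI X M N1 β := si_symm hMc hβc hN1c (si_left hβY hYN1)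
    exact (hDOM V G X M β N1 Mb hM hβc hN1c hMb h1).1
  -- the chain
  obtain ⟨k, K, p, hch⟩ := hCHN V G X M Mb β hM hMbm hMMb hβMb hβ
  have hmain : ∀ i ≤ k, ∃ N : Set V, Mdl X N ∧ K i ⊆ N ∧ N1 ⊆ N ∧ SI X (K i) Mb N ∧
      Om X q N1 N := by
    intro i
    induction i with
    | zero =>
      intro _
      refine ⟨N1, hN1, ?_, le_rfl, ?_, ?_⟩
      · rw [hch.zero]; exact hMN1
      · rw [hch.zero]; exact si_symm hMc hN1c hMbc hN1Mb
      · intro y hy hRl
        obtain ⟨-, -, -, -, -, -, -, rl8', -⟩ := hRLB V G X q hq N1 hN1c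
        exact rl8' y hRl hN1 hqN1 hy
    | succ i ih =>
      intro hi
      obtain ⟨N, hN, hKN, hN1N, hKi, hOm⟩ := ih (by omega)
      have hNc : N.Countable := hN.1
      have hik : i < k := by omega
      obtain ⟨hpi, hpA, hpz⟩ := hch.sr i hik
      have hatm := hch.atm i hik
      have hKm := hch.mdl i (by omega)
      have hKm' := hch.mdl (i + 1) hi
      have hKs := hch.sub i (by omega)
      have hKs' := hch.sub (i + 1) hi
      have hKc : (K i).Countable := hKm.1
      have hKc' : (K (i + 1)).Countable := hKm'.1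
      have hKK : K i ⊆ K (i + 1) := Set.subset_union_left.trans hatm.2.1
      set c := (p i).z with hc
      have hcc : (Set.range c).Countable := Set.countable_range c
      obtain ⟨N', hN'⟩ := ort_atomic (X := X) hMDLB hPRIM (K (i + 1) ∪ N) (hKc'.union hNc)
      have hNN' : N ⊆ N' := Set.subset_union_right.trans hN'.2.1
      have hKN' : K (i + 1) ⊆ N' := Set.subset_union_left.trans hN'.2.1
      -- independence
      have e1 : SI X (K (i + 1)) N Mb := by
        have := si_symm hKc hMbc hNc hKi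
        exact si_up hKc hNc hMbc this hKK (hKs'.trans Set.subset_union_right)
      have e2 : SI X (K (i + 1)) Mb N := si_symm hKc' hNc hMbc e1
      have e3 := (hDOM V G X (K (i + 1)) N Mb N' hKm' hNc hMbc hN' e2).1
      refine ⟨N', hN'.1, hKN', hN1N.trans hNN', e3, ?_⟩
      -- N' is atomic over N ∪ c
      have e4 : SI X (K i) N (Set.range c) := by
        have h1 : SI X (K i) (Set.range c) N := si_left (hpz.trans hKs') hKi
        exact si_symm hKc hcc hNc h1
      have e5 := (hDOM V G X (K i) (Set.range c) N (K (i + 1)) hKm hcc hNc hatm e4).2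
      have e6 : Atm X (K i ∪ Set.range c ∪ N) N' := by
        refine (hATMB V G X (K i ∪ Set.range c) (K (i + 1))).2.2.2.2.1 N N' hN' hatm.2.1 ?_
        intro n c' hc'
        exact e5 (Fin n) c' hc'
      have e7 : K i ∪ Set.range c ∪ N = N ∪ Set.range c := by
        ext x
        constructor
        · rintro ((hx | hx) | hx)
          · exact Or.inl (hKN hx)
          · exact Or.inr hx
          · exact Or.inl hx
        · rintro (hx | hx)
          · exact Or.inr hx
          · exact Or.inl (Or.inr hx)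
      rw [e7] at e6
      -- omission
      intro y hy hRl
      have f1 := hSRL V G X q N1 N hq hN (hqN1.trans hN1N) hN1N hOm y hRl
      have f2 : Isl X (N ∪ Set.range c) y := e6.2.2 1 y hy
      have f3 : ¬ Set.range y ⊆ N := by
        obtain ⟨-, -, -, -, -, -, -, rl8', -⟩ := hRLB V G X q hq N hNc
        exact rl8' y f1 hN (hqN1.trans hN1N)
      have f4 : ¬ SI X N (Set.range y) (Set.range c) := fun hSI =>
        f3 (hUSEV V G X N (Set.range c) hN hcc (Fin 1) y f2 hSI)
      have f5 : Rl X (p i) N c := by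
        refine ⟨eqv_refl _ _, ?_⟩
        rw [hpA]
        exact si_left (hpz.trans hKs') hKi
      have f6 : NO X q (p i) := ⟨N, y, c, hNc, hqN1.trans hN1N, by rw [hpA]; exact hKN, f1, f5, f4⟩
      have f7 : NO X (p i) q := hno2 _ _ f6
      have hMK : M ⊆ K i := by
        have : ∀ j ≤ i, M ⊆ K j := by
          intro j
          induction j with
          | zero => intro _; rw [hch.zero]
          | succ j ihj =>
            intro hj
            exact (ihj (by omega)).trans
              (Set.subset_union_left.trans (hch.atm j (by omega)).2.1)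
        exact this i le_rfl
      have f8 : SI X M (K i) N1 :=
        si_left hKs (si_symm hMc hN1c hMbc hN1Mb)
      obtain ⟨p', hp', hp'A, hp'no⟩ := hSRDN V G X M (K i) N1 (p i) q hM hKm hN1 hMK hMN1 f8 hpi
        (by rw [hpA]) hq hqN1 f7
      exact hMq ⟨p', hp', hp'A, hno3 p' (p i) q hp' hpi hq hp'no f7⟩
  obtain ⟨N, hN, hKN, hN1N, -, hOm⟩ := hmain k le_rfl
  exact hreal N hN hN1N (hch.last.trans hKN) hOm

end Pool.Agent.Helper90.MZ
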