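import Pool.Agent.Helper90.MZ.StmtsZ

/-!
# MP_79eb7e_lc, part Z: the basis is independent from `d` (helper97)
-/

set_option autoImplicit false

namespace Pool.Agent.Helper90.MZ

open Pool.Agent.Helper90.TS

variable {V G : Type} [Group G] [MulAction G V]

theorem zbi_c_countable {X : Ctx V G} {a : Set V} {y : Fin 1 → V} {c : Set V}
    (h : Z3 X a y c) : c.Countable := by
  obtain ⟨⟨n, f, hf, -⟩, -, -⟩ := h
  rw [← hf]
  exact Set.countable_range f

theorem zbi_dom {X : Ctx V G} {a : Set V} {y : Fin 1 → V} {c : Set V}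
    (h : Z3 X a y c) (Y : Set V) (hY : Y.Countable) (h1 : SI X a Y (Set.range y)) :
    SI X a Y (Set.range y ∪ c) := by
  obtain ⟨⟨n, f, hf, D, -, -, h2⟩, -, -⟩ := h
  rw [← hf]
  exact (h2 Y hY h1).1

theorem zbi_ind_unit {X : Ctx V G} {a Y : Set V} : Ind X a (fun _ : Unit => Y) := by
  intro I J hIJ
  by_cases hI : () ∈ I
  · have hJ : () ∉ J := fun h => Set.disjoint_left.1 hIJ hI h
    have : (⋃ j ∈ J, (fun _ : Unit => Y) j) = ∅ := by
      apply Set.eq_empty_of_forall_notMem
      intro x hx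
      simp only [Set.mem_iUnion] at hx
      obtain ⟨j, hj, -⟩ := hx
      exact hJ hj
    rw [this]
    exact si_empty_right
  · have : (⋃ j ∈ I, (fun _ : Unit => Y) j) = ∅ := by
      apply Set.eq_empty_of_forall_notMem
      intro x hx
      simp only [Set.mem_iUnion] at hx
      obtain ⟨j, hj, -⟩ := hx
      exact hI hj
    rw [this]
    exact si_empty_left

/-- stationarity of finite unions of independent stationary sets -/
theorem zbi_stn_finset (h3 : ST_STN) {X : Ctx V G} {a : Set V} (ha : a.Countable) {κ : Type}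
    [Countable κ] (S : κ → Set V) (hS : ∀ i, (S i).Countable) (hind : Ind X a S)
    (hst : ∀ i, Stn X a (S i)) (F : Finset κ) : Stn X a (⋃ i ∈ F, S i) := by
  classical
  induction F using Finset.induction_on with
  | empty =>
    intro C hC g hg h1 h2
    refine ⟨1, fun x _ => one_smul _ _, ?_⟩
    intro x hx
    simp at hx
  | insert i F hi ih =>
    rw [Finset.set_biUnion_insert]
    refine (h3 V G X).2.2.1 a (S i) _ ha (hS i)
      (Set.Countable.biUnion F.countable_toSet (fun j _ => hS j)) (hst i) ih ?_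
    have := hind {i} (F : Set κ) (by
      rw [Set.disjoint_singleton_left]
      exact fun h => hi (Finset.mem_coe.1 h))
    simpa using this

theorem zbi_stn_all (h3 : ST_STN) {X : Ctx V G} {a : Set V} (ha : a.Countable) {κ : Type}
    [Countable κ] (S : κ → Set V) (hS : ∀ i, (S i).Countable) (hind : Ind X a S)
    (hst : ∀ i, Stn X a (S i)) : Stn X a (a ∪ ⋃ i, S i) := by
  classical
  have hU : (⋃ i, S i).Countable := Set.countable_iUnion hS
  obtain ⟨-, s2, s3, s4, -, -, -⟩ := h3 V G X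
  have haa : Stn X a a := by
    intro C hC g hg h1 h2
    exact ⟨1, fun x _ => one_smul _ _, fun x hx => by rw [one_smul, hg x hx]⟩
  have hSU : Stn X a (⋃ i, S i) := by
    refine s4 a _ ha hU ?_
    intro B0 hB0 hfin
    -- a finite subset is contained in a finite union
    have hex : ∀ x : B0, ∃ i, x.1 ∈ S i := fun x => Set.mem_iUnion.1 (hB0 x.2)
    choose f hf using hex
    have : Fintype B0 := hfin.fintype
    have hsub : B0 ⊆ ⋃ i ∈ (Finset.univ : Finset B0).image f, S i := by
      intro x hx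
      simp only [Set.mem_iUnion]
      exact ⟨f ⟨x, hx⟩, Finset.mem_image_of_mem f (Finset.mem_univ _), hf ⟨x, hx⟩⟩
    exact s2 a _ B0 ha (Set.Countable.biUnion (Finset.countable_toSet _) (fun j _ => hS j)) hsub
      (zbi_stn_finset h3 ha S hS hind hst _)
  exact s3 a a _ ha ha hU haa hSU (si_self_left ha hU le_rfl)

/-- independence of the basis from conjugates of `d` -/
theorem zbi_si (h1 : ST_TLS) (h2 : ST_NT) (h4 : ST_IND) (h5 : ST_RLB) {X : Ctx V G}
    {Q a : Set V} {d : ℕ → V} {s : ℕ} {t : Fin s → Ty V} {κ : Type} [Countable κ]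
    {l : κ → Fin s} {z : κ → Fin 1 → V} {c : κ → Set V} (hF : Few X) (hZ : ZS X Q a d t)
    (hW : WQ X Q a t l z c) {σ : G} (hσ : σ ∈ Fx G a) :
    SI X a (WW a z c) (tr σ (Set.range d)) := by
  have ha : a.Countable := hZ.afin.countable
  have hc : ∀ i, (c i).Countable := fun i => zbi_c_countable (hW.z3 i)
  have hd : (Set.range d).Countable := Set.countable_range d
  have hY : (tr σ (Set.range d)).Countable := tr_countable σ hd
  have hz : ∀ i, (Set.range (z i)).Countable := fun i => Set.countable_range (z i)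
  have hzc : ∀ i, (Set.range (z i) ∪ c i).Countable := fun i => (hz i).union (hc i)
  obtain ⟨-, -, -, -, i5, -, -, i8, -⟩ := h4 V G X a ha
  -- the realizations are independent from `Y`
  have hsi : ∀ i, SI X a (Set.range (z i)) (tr σ (Set.range d)) := by
    intro i
    obtain ⟨hsr, hA, -⟩ := hZ.t1 (l i)
    have hu : (t (l i)).A ∪ a = a := Set.union_eq_self_of_subset_left hA
    have e1 : Rl X (t (l i)) a (σ⁻¹ • z i) := by
      refine (h5 V G X (t (l i)) hsr a ha).2.2.2.2.2.1 (z i) (σ⁻¹ • z i) (hW.rl i) ?_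
      rw [hu]
      exact ⟨σ⁻¹, (Fx G a).inv_mem hσ, rfl⟩
    have e2 := hZ.z2 (l i) (σ⁻¹ • z i) e1
    have e3 := (h5 V G X (t (l i)) hsr a ha).2.2.2.2.1 (σ⁻¹ • z i) (Set.range d) hd e2
    rw [hu] at e3
    have e4 := (si_fx ha (Set.countable_range _) hd hσ).2 e3
    rw [tr_range, smul_inv_smul] at e4
    exact e4
  have hindz : Ind X a (fun i => Set.range (z i)) :=
    i5 κ (fun i => Set.range (z i) ∪ c i) (fun i => Set.range (z i)) hzc hz hW.ind
      (fun i => Or.inl Set.subset_union_left)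
  have hU : SI X a (⋃ i, Set.range (z i)) (tr σ (Set.range d)) := by
    refine h1 V G X s t a (tr σ (Set.range d)) κ l z ?_ hZ.t2 ha hY hW.rl hindz hsi
    intro j
    obtain ⟨hsr, hA, hact⟩ := hZ.t1 j
    exact ⟨hsr, h2 V G X (t j) hF hsr hact, hA⟩
  have hsum : Ind X a (Sum.elim (fun i => Set.range (z i)) (fun _ : Unit => tr σ (Set.range d))) :=
    i8 κ Unit (fun i => Set.range (z i)) (fun _ : Unit => tr σ (Set.range d)) hz (fun _ => hY)
      hindz zbi_ind_unit (by rwa [Set.iUnion_const])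
  have hsum2 : Ind X a (Sum.elim (fun i => Set.range (z i) ∪ c i)
      (fun _ : Unit => tr σ (Set.range d))) := by
    refine i5 (κ ⊕ Unit) _ _ ?_ ?_ hsum ?_
    · rintro (i | i)
      · exact hz i
      · exact hY
    · rintro (i | i)
      · exact hzc i
      · exact hY
    · rintro (i | i)
      · exact Or.inr ⟨Set.subset_union_left, fun Y hY' h => zbi_dom (hW.z3 i) Y hY' h⟩
      · exact Or.inl le_rfl
  have hfin := hsum2 (Set.range Sum.inl) (Set.range Sum.inr) (by
    rw [Set.disjoint_left]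
    rintro _ ⟨i, rfl⟩ ⟨j, hj⟩
    simp at hj)
  rw [Set.biUnion_range, Set.biUnion_range] at hfin
  simp only [Sum.elim_inl, Sum.elim_inr, Set.iUnion_const] at hfin
  unfold WW
  exact (si_add_basel ha (Set.countable_iUnion hzc) hY).2 hfin

theorem st_ZBI (h1 : ST_TLS) (h2 : ST_NT) (h3 : ST_STN) (h4 : ST_IND) (h5 : ST_RLB)
    (_h6 : ST_INVA) : ST_ZBI := by
  intro V G _ _ X Q a d s t κ _ l z c hF hZ hW σ hσ
  have ha : a.Countable := hZ.afin.countable
  have hc : ∀ i, (c i).Countable := fun i => zbi_c_countable (hW.z3 i)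
  have hzc : ∀ i, (Set.range (z i) ∪ c i).Countable :=
    fun i => (Set.countable_range (z i)).union (hc i)
  have hWc : (WW a z c).Countable := ha.union (Set.countable_iUnion hzc)
  have hd : (Set.range d).Countable := Set.countable_range d
  have hY : (tr σ (Set.range d)).Countable := tr_countable σ hd
  have hr : Set.range (fun i => σ • d i) = tr σ (Set.range d) := by
    ext x
    constructor
    · rintro ⟨i, rfl⟩
      exact ⟨d i, ⟨i, rfl⟩, rfl⟩
    · rintro ⟨_, ⟨i, rfl⟩, rfl⟩
      exact ⟨i, rfl⟩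
  have hsi := zbi_si h1 h2 h4 h5 hF hZ hW hσ
  refine ⟨by rw [hr]; exact hsi, ?_⟩
  have hst : Stn X a (WW a z c) :=
    zbi_stn_all h3 ha (fun i => Set.range (z i) ∪ c i) hzc hW.ind (fun i => (hW.z3 i).2.1)
  have hsi1 : SI X a (WW a z c) (Set.range d) := by
    have := zbi_si h1 h2 h4 h5 hF hZ hW (σ := 1) (Fx G a).one_mem
    rwa [tr_one] at this
  have hsi2 : SI X a (tr σ (WW a z c)) (tr σ (Set.range d)) := (si_fx ha hWc hd hσ).2 hsi1
  obtain ⟨h, hh, hx⟩ := hst _ hY σ hσ hsi hsi2
  refine ⟨h⁻¹ * σ, ?_, ?_⟩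
  · intro x hxW
    rw [mul_smul, ← hx x hxW, inv_smul_smul]
  · intro i
    rw [mul_smul, inv_smul_eq_iff]
    exact (hh (σ • d i) (Or.inr ⟨d i, ⟨i, rfl⟩, rfl⟩)).symm

end Pool.Agent.Helper90.MZ
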